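import Mathlib
import Pool.Agent.H87.CPos.Scattered
import Pool.Agent.H87.CPos.Forcing
import Pool.Agent.H87.CPos.Kappa
import Pool.Agent.H87.CPos.Trivial
import Pool.Agent.H87.Lib.Helper332.SAD.Statements

/-!
# Question 1 on compact continuous images of `C_p(K)`, `K` scattered, is independent of ZFC

The new part is the consistency of the positive answer, items (1) to (3).

Forcing notions are preordered sets `P : Type`; a sentence of the forcing language is represented
by the set of the conditions which force it, and a name of a subset of a ground model set `X` is a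
map from `X` to the subsets of `P`.
-/

set_option autoImplicit false

namespace Pool.Agent.Results.MP_b07c92_gt.Q1Independence

open Cardinal Set
open Pool.Agent.H87.CPos (LuzinAx IndepAx LuzinHolds IndepHolds)
open Pool.Agent.Helper332.SAD (SADHolds StronglyAlmostDisjoint)
open Pool.Agent.Helper332.SADSpace (Scattered)
open Pool.Agent.Helper292.ForceCH (OmegaOnePreserved)

/-- Question 1: if `K` is a scattered compact Hausdorff space, then every compact Hausdorff
continuous image of `C_p(K)` is metrizable. -/
def Q1 : Prop :=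
  ∀ (K : Type) [TopologicalSpace K] [CompactSpace K] [T2Space K], Scattered K →
    ∀ (Y : Type) [TopologicalSpace Y] [CompactSpace Y] [T2Space Y]
      (φ : {g : K → ℝ // Continuous g} → Y), Continuous φ → Function.Surjective φ →
      TopologicalSpace.MetrizableSpace Y

/-- (1) Question 1 has a positive answer if `2 ^ ω < 2 ^ ω₁` (`LuzinAx`) and every family of more
than `2 ^ ω` subsets of `ω₁` has an infinite independent subfamily (`IndepAx`).
(2) Some forcing notion forces that `ω₁` is preserved and that both principles hold.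
(3) For the one-point forcing notion the two forced sentences are the two plain principles.
(4) Question 1 has a negative answer if there are `2 ^ ω₁` strongly almost disjoint functions
`ω₁ → ω`. (5) Some forcing notion forces that `ω₁` is preserved and that there are such
functions. -/
theorem result :
    (LuzinAx → IndepAx → Q1) ∧
    (∃ (P : Type) (_ : Preorder P), Nonempty P ∧
      ∀ p : P, p ∈ OmegaOnePreserved P ∧ p ∈ LuzinHolds P ∧ p ∈ IndepHolds P) ∧
    (((∀ p : Unit, p ∈ LuzinHolds Unit) ↔ LuzinAx) ∧
      ((∀ p : Unit, p ∈ IndepHolds Unit) ↔ IndepAx)) ∧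
    (StronglyAlmostDisjoint → ¬ Q1) ∧
    (∃ (P : Type) (_ : Preorder P) (I : Type), Nonempty P ∧
      ∀ p : P, p ∈ OmegaOnePreserved P ∧ p ∈ SADHolds P I) := by
  refine ⟨fun hL hI => ?_, ?_, ⟨Pool.Agent.H87.CPos.unit_luzin, Pool.Agent.H87.CPos.unit_indep⟩,
    ?_, Pool.Agent.Helper332.SAD.exists_forcing⟩
  · intro K _ _ _ hK Y _ _ _ φ hφ hs
    exact Pool.Agent.H87.CPos.positive hL hI K hK Y φ hφ hs
  · obtain ⟨J, h1, h2, h3⟩ := Pool.Agent.H87.CPos.exists_index
    have h0 : ℵ₀ ≤ #J := aleph0_le_continuum.trans ((cantor 𝔠).le.trans h2)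
    exact ⟨Pool.Agent.H87.CPos.Fn J, inferInstance, inferInstance, fun p =>
      ⟨Pool.Agent.H87.CPos.omegaOnePreserved p, Pool.Agent.H87.CPos.luzinHolds h1 h3 h0 p,
        Pool.Agent.H87.CPos.indepHolds h1 h2 p⟩⟩
  · rintro ⟨I, f, e, hf, he⟩ hQ
    obtain ⟨K, t, h1, h2, h3, -, -, Y, tY, φ, h4, h5, h6, h7, h8⟩ :=
      Pool.Agent.Helper332.SADSpace.space_of_sad I f e hf he
    exact h8 (hQ K h3 Y φ h6 h7)

end Pool.Agent.Results.MP_b07c92_gt.Q1Independence
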